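import Pool.Agent.Lib.MP_bc213e_ag.TE.Tor

/-! The base of the fibration, for pairs that are klt at the points of dimension more than `ν + j`. -/

namespace Pool.Agent.Lib.MP_bc213e_ag.OW

open Pool.Agent.Lib.MP_bc213e_ag.Hyp Pool.Agent.Lib.MP_bc213e_ag.KBB WithZero Filter Module

theorem Emb.fbBase {K K' κ : Type} [Field K] [Algebra ℂ K] [Field K'] [Algebra ℂ K'] [Algebra K K']
    [IsScalarTower ℂ K K'] [Fintype κ] {N n m ν j k p : ℕ} (hm : 0 < m) {x : Fin (N + 1) → Kˣ}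
    (normal : ∀ i, IsFractionRing (chart x i) K ∧ IsIntegrallyClosed (chart x i))
    {τ : Fin n → K} (hτ : IsTranscendenceBasis ℂ τ) {D : Fin n → Derivation ℂ K K}
    (hD : ∀ a b, D a (τ b) = if a = b then 1 else 0)
    {KX : Prm x →₀ ℤ} (canonical : IsCanonical D KX) {Δ : Prm x →₀ ℚ} (effective : 0 ≤ Δ)
    {L : Prm x →₀ ℤ} (hL : ∀ w, (L w : ℚ) = m * (KX w + Δ w)) (nef : IsNef L)
    (klt : ∀ (O : Subalgebra ℂ K) (F : Type) [Field F] [Algebra ℂ F] (ρ : O →ₐ[ℂ] F),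
      IsPoint x O → Function.Surjective ρ → ((ν + j : ℕ) : Cardinal) < Algebra.trdeg ℂ F →
        KltAt D m L O ∧ (p = 0 ∨ SmoothAt n O))
    {H : Prm x →₀ ℤ}
    (hyperplane : ∀ i (w : Prm x), PrimeDiv (chart x i) w.1 → H w = ord w.1 ((x 0 : K) / x i))
    {ξ : Fin k × Fin n → K'} (hξ : AlgebraicIndependent K ξ) {type : Fin p → Fin k}
    {P : Polynomial (Polynomial ℚ)}
    (euler : ∀ t a : ℕ, (chi (SectT D ξ type (t • L + a • H)) : ℚ) =
      (P.eval (Polynomial.C (t : ℚ))).eval (a : ℚ))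
    (deg : P.natDegree ≤ ν) (order : ¬ Polynomial.X ^ (j + 1) ∣ P.coeff ν) (E : Emb L κ) :
    ∃ (S : DD.Su K (RatFunc K) κ n) (P' : Polynomial (Polynomial ℚ)), S.x = E.x' ∧ S.g = E.g' ∧
      P'.natDegree ≤ ν ∧ P'.coeff ν ≠ 0 ∧
      (∀ t : ℕ, ∀ᶠ a : ℕ in atTop,
        (finrank ℂ (SecS S.x S.g t a) : ℚ) = P'.evalEval (a : ℚ) (t : ℚ)) ∧
      ∃ F : IntermediateField ℂ (RatFunc K), Algebra.trdeg ℂ F ≤ (ν + j + 1 : ℕ) ∧
        ∀ a : ℕ, FiniteDimensional F (Submodule.span F {f | ∃ (i : ℕ) (s : K),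
          Sec S.x S.g i a s ∧ f = algebraMap K (RatFunc K) s * S.u ^ i}) := by
  have : Nonempty κ := ⟨E.k₀⟩
  have hk : (E.k : ℚ) ≠ 0 := Nat.cast_ne_zero.2 E.kpos.ne'
  obtain ⟨P₀, a₀, hP⟩ := uniform E.x' E.g' E.cart (E.nef (fun i => (normal i).1) nef)
  obtain ⟨P', p1⟩ := exists_two0 P₀
  obtain ⟨Q₀, a₁, N', e', e1, e2, -, e5⟩ := E.tens normal hτ hD nef hξ type
  obtain ⟨e3, e4⟩ := E.tensH normal hD nef hyperplane hξ type
  obtain ⟨Q, hQ⟩ : ∃ Q, Q = P.map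
    (Polynomial.compRingHom (Polynomial.C (E.k : ℚ) * Polynomial.X)) := ⟨_, rfl⟩
  have q2 : Q.natDegree ≤ ν := hQ ▸ Polynomial.natDegree_map_le.trans deg
  have q3 : ¬ Polynomial.X ^ (j + 1) ∣ Q.coeff ν := fun h => order (by
    rw [hQ, Polynomial.coeff_map, Polynomial.coe_compRingHom_apply, Polynomial.X_pow_dvd_iff] at h
    refine Polynomial.X_pow_dvd_iff.2 fun d hd => ?_
    have h2 := h d hd
    rw [Polynomial.comp_C_mul_X_coeff] at h2
    exact (mul_eq_zero.1 h2).resolve_right (pow_ne_zero d hk))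
  have q0 : Q.coeff ν ≠ 0 := fun h => q3 (h ▸ dvd_zero _)
  obtain ⟨S, s1, s2, s3, s4, s6⟩ := E.exists_suT hm normal hτ hD canonical effective hL nef
    fun O F _ _ ρ h1 h2 h3 => (klt O F ρ h1 h2 h3).1
  have q1 : ∀ t a : ℕ, a₁ ≤ a → (finrank ℂ (S.SE type t a) : ℚ) = Q.evalEval (a : ℚ) (t : ℚ) :=
    fun t a ha => by
      have h1 := KBF.link e2 (p := fun t => Q.eval (Polynomial.C (t : ℚ))) (fun t => by
        filter_upwards [e3 t] with a ha
        have e : Polynomial.C (t : ℚ) = Polynomial.compRingHom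
            (Polynomial.C (E.k : ℚ) * Polynomial.X) (Polynomial.C (t : ℚ)) := by
          rw [Polynomial.coe_compRingHom_apply, Polynomial.C_comp]
        rw [ha, euler, hQ, e, Polynomial.eval_map, Polynomial.eval₂_at_apply,
          Polynomial.coe_compRingHom_apply, Polynomial.coe_compRingHom_apply, Polynomial.C_comp,
          Polynomial.eval_comp]
        simp) t
      rw [DD.Su.SE, s1, s2, s3, e2 t a ha, ← KBF.spec_eval, ← h1]
  rcases Nat.eq_zero_or_pos p with rfl | hp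
  · have h1 : ∀ t : ℕ, ∀ᶠ a : ℕ in atTop,
        (finrank ℂ (SecS S.x S.g t a) : ℚ) = Q.evalEval (a : ℚ) (t : ℚ) := fun t => by
      filter_upwards [eventually_ge_atTop a₁] with a ha
      rw [← q1 t a ha, S.finrank_SE_zero]
    exact ⟨S, Q, s1, s2, q2, q0, h1, S.basek s4 s6 q2 q3 h1⟩
  have hs : S.Sm (ν + j) := fun i q hq h3 => by
    obtain ⟨F, _, _, ρ, h4, h5⟩ := exists_residue q
    have h6 : Loc (chart x (E.j i)) (chart S.x i) := s1 ▸ E.loc i
    exact smooth_chart S.x i q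
      ((klt _ F ρ (h6.isPoint q) h4 (h5 ▸ h3)).2.resolve_left hp.ne')
  rw [← s1, ← s2, ← s3] at e1 e4 e5
  rw [← s1, ← s2] at hP
  obtain ⟨e, e4⟩ := e4.resolve_left fun h => top_ne_of_le (P := 0) (Q := Q) (a₀ := a₁) (e := 0)
    (c := 0) (by simp) q0 (fun t a ha => by rw [← q1 t a ha, h t a]; simp) (by simp)
  have p2 : P'.natDegree ≤ ν := Polynomial.natDegree_le_iff_coeff_eq_zero.2 fun d hd =>
    by_contra fun h => top_ne_of_le (P := Q) (Q := P') (a₀ := a₀ + a₁) (e := e) (c := 1)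
      (q2.trans hd.le) h (fun t a ha => by
        rw [p1, ← (hP t a (by omega)).2, one_mul, ← q1 t _ (by omega), Nat.abs_cast,
          Nat.abs_cast]
        exact Nat.cast_le.2 (e4 t a)) (Polynomial.coeff_eq_zero_of_natDegree_lt (q2.trans_lt hd))
  have p3 : P'.coeff ν ≠ 0 := top_ne_of_le (Q := Q) (a₀ := a₀ + a₁) (e := e') (c := N') p2 q0
    fun t a ha => by
      rw [p1, ← (hP t _ (by omega)).2, ← q1 t a (by omega), ← Nat.cast_mul, Nat.abs_cast,
        Nat.abs_cast]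
      exact Nat.cast_le.2 (e5 t a)
  have h1 : ∀ t : ℕ, ∀ᶠ a : ℕ in atTop,
      (finrank ℂ (SecS S.x S.g t a) : ℚ) = P'.evalEval (a : ℚ) (t : ℚ) := fun t => by
    filter_upwards [eventually_ge_atTop a₀] with a ha
    rw [(hP t a ha).2, p1]
  exact ⟨S, P', s1, s2, p2, p3, h1, S.baseT s4 s6 hs type p2 h1 e1 q2 q3 q1⟩

end Pool.Agent.Lib.MP_bc213e_ag.OW
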