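import Pool.Agent.Lib.MP_bc213e_ag.OW.Defs

/-! Divisors with a multiple that is trivial on the generic fibre of a rational map. -/

namespace Pool.Agent.Lib.MP_bc213e_ag.OW

open Pool.Agent.Lib.MP_bc213e_ag.Hyp

/-- A positive multiple `M L` of `L` is trivial on the generic fibre of the rational map from `X`
to a variety with function field `F`: one function `θ` is a local equation of `- M L` along every
valuation ring that contains `F`. -/
def Tors {K ι : Type} [Field K] [Algebra ℂ K] {x : ι → Kˣ} (L : Prm x →₀ ℤ)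
    (F : IntermediateField ℂ K) : Prop :=
  ∃ (M : ℕ) (θ : Kˣ), 0 < M ∧ ∀ (V : ValuationSubring K) (O : Subalgebra ℂ K) (f : Kˣ),
    (∀ c ∈ F, c ∈ V) → IsPoint x O → (∀ r ∈ O, r ∈ V) → LocEq L O f →
      V.valuation ((θ : K) * (f : K) ^ M) = 1

end Pool.Agent.Lib.MP_bc213e_ag.OW
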