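import Pool.Agent.Lib.MP_bc213e_ag.FB.Main

/-!
Let `X ⊆ ℙ ^ N` be a normal projective variety and `Δ ≥ 0` a rational divisor such that
`L = m (K + Δ)` is Cartier and has nonnegative degree on every curve. Let `E` be the reflexive hull
of `S ^ (d 1) Ω ⊗ ⋯ ⊗ S ^ (d k) Ω`, of total degree `p`. Let `(X, Δ)` be klt at all points of
dimension more than `ν + j`, and let `X` be smooth there unless `p = 0`, that is, unless `E = O`.
Let `H` be the hyperplane section `x 0 = 0` and let
`P (t, a) = χ (E (t L + a H))` have degree at most `ν` in `t`, with a coefficient of `t ^ ν` that is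
not divisible by `a ^ (j + 1)`. Then either a positive multiple of `L` is linearly equivalent to an
effective divisor and the sections of `t L` grow like `t ^ ν`, or the least dimension `d` of the
target of a rational map on whose generic fibre a multiple of `L` is trivial has `ν < d ≤ ν + j`.
For `j = 0` the second case does not occur.
-/

namespace Pool.Agent.Lib.MP_bc213e_ag.FB

open Pool.Agent.Lib.MP_bc213e_ag.Hyp Pool.Agent.Lib.MP_bc213e_ag.OW Filter

theorem fibred_full {K K' : Type} [Field K] [Algebra ℂ K] [Field K'] [Algebra ℂ K'] [Algebra K K']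
    [IsScalarTower ℂ K K'] {N n m ν j k p : ℕ} (hm : 0 < m) (x : Fin (N + 1) → Kˣ)
    (normal : ∀ i, IsFractionRing (chart x i) K ∧ IsIntegrallyClosed (chart x i))
    (τ : Fin n → K) (hτ : IsTranscendenceBasis ℂ τ) (D : Fin n → Derivation ℂ K K)
    (hD : ∀ a b, D a (τ b) = if a = b then 1 else 0)
    (KX : Prm x →₀ ℤ) (canonical : IsCanonical D KX) (Δ : Prm x →₀ ℚ) (effective : 0 ≤ Δ)
    (L : Prm x →₀ ℤ) (hL : ∀ w, (L w : ℚ) = m * (KX w + Δ w))
    (cartier : IsCartier L) (nef : IsNef L)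
    (klt : ∀ (O : Subalgebra ℂ K) (F : Type) [Field F] [Algebra ℂ F] (ρ : O →ₐ[ℂ] F),
      IsPoint x O → Function.Surjective ρ → ((ν + j : ℕ) : Cardinal) < Algebra.trdeg ℂ F →
        KltAt D m L O ∧ (p = 0 ∨ SmoothAt n O))
    (H : Prm x →₀ ℤ)
    (hyperplane : ∀ i (w : Prm x), PrimeDiv (chart x i) w.1 → H w = ord w.1 ((x 0 : K) / x i))
    (ξ : Fin k × Fin n → K') (hξ : AlgebraicIndependent K ξ) (type : Fin p → Fin k)
    (P : Polynomial (Polynomial ℚ))
    (euler : ∀ t a : ℕ, (chi (SectT D ξ type (t • L + a • H)) : ℚ) =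
      (P.eval (Polynomial.C (t : ℚ))).eval (a : ℚ))
    (deg : P.natDegree ≤ ν) (order : ¬ Polynomial.X ^ (j + 1) ∣ P.coeff ν) :
    ((∃ t : ℕ, 0 < t ∧ ∃ f : Kˣ, ∀ w : Prm x, 0 ≤ ord w.1 (f : K) + t * L w) ∧
      ∃ δ : ℚ, 0 < δ ∧ ∃ᶠ t : ℕ in atTop,
        δ * (t : ℚ) ^ ν ≤ Module.finrank ℂ (Sect (t • L) ∅)) ∨
    ∃ d : ℕ, ν < d ∧ d ≤ ν + j ∧
      IsLeast {e : ℕ | ∃ F : IntermediateField ℂ K, Algebra.trdeg ℂ F = e ∧ Tors L F} d :=
  (fibred hm x normal τ hτ D hD KX canonical Δ effective L hL cartier nef klt H hyperplane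
    ξ hξ type P euler deg order).imp_left fun h => ⟨concl_of_growth h, h⟩

end Pool.Agent.Lib.MP_bc213e_ag.FB
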