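import Pool.Agent.Lib.MP_bc213e_ag.FB.Defs
import Pool.Agent.Lib.MP_bc213e_ag.FB.Base
import Pool.Agent.Lib.MP_bc213e_ag.SB.E.Pow
import Pool.Agent.Lib.MP_bc213e_ag.SB.Z.Main
import Pool.Agent.Lib.MP_bc213e_ag.SB.U.RK

/-! Sections, or a fibration with a base of dimension between `ν + 1` and `ν + j`. -/

namespace Pool.Agent.Lib.MP_bc213e_ag.OW

open Pool.Agent.Lib.MP_bc213e_ag.Hyp Pool.Agent.Lib.MP_bc213e_ag.KBB WithZero Filter Module

theorem fb_growth {K M ι : Type} [Field K] [Algebra ℂ K] [Field M] [Algebra ℂ M] [Algebra K M]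
    [IsScalarTower ℂ K M] [Fintype ι] {n ν : ℕ} (S : DD.Su K M ι n)
    {P : Polynomial (Polynomial ℚ)} (deg : P.natDegree ≤ ν) (lead : P.coeff ν ≠ 0)
    (hilbert : ∀ t : ℕ, ∀ᶠ a : ℕ in atTop,
      (finrank ℂ (SecS S.x S.g t a) : ℚ) = P.evalEval (a : ℚ) (t : ℚ))
    {k : IntermediateField ℂ K} {b N : ℕ} (hb : Algebra.trdeg ℂ k = b) (hν : b ≤ ν) (hN : 0 < N)
    {θ : K} (h0 : θ ≠ 0)
    (tor : ∀ i (O : ValuationSubring K), (∀ c ∈ k, c ∈ O) → (∀ r ∈ chart S.x i, r ∈ O) →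
      O.valuation θ = O.valuation ((S.g i : K) ^ N)) :
    ∃ d : ℚ, 0 < d ∧ ∃ᶠ t : ℕ in atTop, d * (t : ℚ) ^ ν ≤ finrank ℂ (SecS S.x S.g t 0) := by
  obtain ⟨S', s1, s2, -, -⟩ := SB.exists_pow S hN
  have hN' : (N : ℚ) ≠ 0 := Nat.cast_ne_zero.2 hN.ne'
  obtain ⟨B, φ, hB⟩ := SB.vv_bound (x := S'.x) (g := S'.g) (k := k) S'.one S'.frac (θ := θ)
    fun j V h1 h2 => by
      rw [s2, Units.val_pow_eq_pow_val]
      exact tor j V h1 (s1 ▸ h2)
  obtain ⟨F, f1, f2, f3, -⟩ := SB.U.exists_L k hb (algebraMap K M θ * S'.u)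
  obtain ⟨a₀, hP⟩ := S'.unif (P := P.comp (Polynomial.C (Polynomial.C (N : ℚ)) * Polynomial.X))
    fun t => by
      filter_upwards [hilbert (N * t)] with a ha
      rw [s1, s2, SB.secS_pow, ha]
      simp [Polynomial.evalEval, Polynomial.eval_comp]
  obtain ⟨a, c, -, hc0, big⟩ := DD.num_big (ν := ν) _ (Polynomial.natDegree_comp_le.trans (by
      rw [Polynomial.natDegree_C_mul_X _ (Polynomial.C_ne_zero.2 hN'), mul_one]
      exact deg))
    (by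
      rw [Polynomial.comp_C_mul_X_coeff]
      exact mul_ne_zero lead (pow_ne_zero _ (Polynomial.C_ne_zero.2 hN')))
    (fun t a => finrank ℂ (SecS S'.x S'.g t a)) a₀ hP
  obtain ⟨d, hd, h⟩ := DS.endgame S'.frac S'.norm S'.one S'.cart S'.nef
    ((TCI.trdeg_eq_card S'.τ S'.hτ).trans (by rw [Fintype.card_fin])) S'.u S'.tr S'.top F
    (f3.trans (Nat.cast_le.2 (Nat.succ_le_succ hν))) a (by
      have := (hB a).1
      have := (SB.U.rk_span (F' := F) (algebraMap K M).toAddMonoidHom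
        (fun c : k => ⟨⟨_, f2 c c.2⟩, fun g => map_mul (algebraMap K M) (c : K) g⟩)
        (SB.VV S'.x S'.g k θ a)).1
      refine Submodule.finiteDimensional_of_le (S₂ := Submodule.span F
        ((algebraMap K M).toAddMonoidHom '' SB.VV S'.x S'.g k θ a)) (Submodule.span_le.2 ?_)
      rintro _ ⟨i, s, hs, rfl⟩
      exact SB.U.U_le_span h0 f1 a (S'.V_le_U i a (S'.sec_mem_V le_rfl hs))) hc0 big
  have h4 : Tendsto (fun t : ℕ => N * t) atTop atTop :=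
    tendsto_atTop_mono (fun t => Nat.le_mul_of_pos_left t hN) tendsto_id
  refine ⟨d / (N : ℚ) ^ ν, div_pos hd (pow_pos (Nat.cast_pos.2 hN) ν),
    h4.frequently (h.mono fun t ht => ?_)⟩
  rw [s1, s2, SB.secS_pow] at ht
  rwa [Nat.cast_mul (α := ℚ), mul_pow, ← mul_assoc, div_mul_cancel₀ _ (pow_ne_zero ν hN')]

variable {K κ : Type} [Field K] [Algebra ℂ K] {N : ℕ} {x : Fin N → Kˣ} {L : Prm x →₀ ℤ}

theorem Emb.triv_of [Fintype κ] (E : Emb L κ)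
    (normal : ∀ i, IsFractionRing (chart x i) K ∧ IsIntegrallyClosed (chart x i))
    {F : IntermediateField ℂ K} {M : ℕ} (hM : 0 < M) {θ : K}
    (h : ∀ i (O : ValuationSubring K), (∀ c ∈ F, c ∈ O) → (∀ r ∈ chart E.x' i, r ∈ O) →
      O.valuation θ = O.valuation ((E.g' i : K) ^ M)) : Tors L F := by
  have : Nonempty κ := ⟨E.k₀⟩
  have h0 : θ ≠ 0 := fun e => by
    have h2 := h E.k₀ ⊤ (fun _ _ => trivial) fun _ _ => trivial
    rw [e, map_zero] at h2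
    exact pow_ne_zero M (Units.ne_zero _) ((map_eq_zero _).1 h2.symm)
  refine ⟨M, Units.mk0 θ h0, hM, fun V O f hV hO hO' hf => ?_⟩
  obtain ⟨a, ha⟩ := exists_chart_le E.x' V fun c => hV _ (F.algebraMap_mem c)
  rw [Units.val_mk0, map_mul, h a V hV ha, ← map_mul, ← mul_pow, map_pow,
    E.val_eq normal V ha hO hO' hf, one_pow]

theorem Emb.of_triv (E : Emb L κ)
    (normal : ∀ i, IsFractionRing (chart x i) K ∧ IsIntegrallyClosed (chart x i))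
    (cartier : IsCartier L) {F : IntermediateField ℂ K} (h : Tors L F) :
    ∃ (M : ℕ) (θ : K), 0 < M ∧ θ ≠ 0 ∧ ∀ i (O : ValuationSubring K), (∀ c ∈ F, c ∈ O) →
      (∀ r ∈ chart E.x' i, r ∈ O) → O.valuation θ = O.valuation ((E.g' i : K) ^ M) := by
  obtain ⟨M, θ, hM, h⟩ := h
  refine ⟨M, θ, hM, θ.ne_zero, fun a V hV ha => ?_⟩
  have hj : ∀ r ∈ chart x (E.j a), r ∈ V := fun r hr => ha r ((E.loc a).1 hr)
  have hO := isPoint_locAt x (E.j a) (valCentre _ V hj)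
  have hO' : ∀ r ∈ locAt (chart x (E.j a)) (valCentre _ V hj), r ∈ V := by
    rintro r ⟨b, b1, b2⟩
    have b3 := Val_le (hj _ b2)
    rwa [map_mul, notMem_valCentre.1 b1, one_mul, V.valuation_le_one_iff] at b3
  obtain ⟨f, hf⟩ := cartier _ hO
  refine mul_right_cancel₀ ((map_ne_zero V.valuation).2 (pow_ne_zero M f.ne_zero)) ?_
  rw [← map_mul, h V _ f hV hO hO' hf, ← map_mul, ← mul_pow, map_pow,
    E.val_eq normal V ha hO hO' hf, one_pow]

theorem fibred {K K' : Type} [Field K] [Algebra ℂ K] [Field K'] [Algebra ℂ K'] [Algebra K K']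
    [IsScalarTower ℂ K K'] {N n m ν j k p : ℕ} (hm : 0 < m) (x : Fin (N + 1) → Kˣ)
    (normal : ∀ i, IsFractionRing (chart x i) K ∧ IsIntegrallyClosed (chart x i))
    (τ : Fin n → K) (hτ : IsTranscendenceBasis ℂ τ) (D : Fin n → Derivation ℂ K K)
    (hD : ∀ a b, D a (τ b) = if a = b then 1 else 0)
    (KX : Prm x →₀ ℤ) (canonical : IsCanonical D KX) (Δ : Prm x →₀ ℚ) (effective : 0 ≤ Δ)
    (L : Prm x →₀ ℤ) (hL : ∀ w, (L w : ℚ) = m * (KX w + Δ w))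
    (cartier : IsCartier L) (nef : IsNef L)
    (klt : ∀ (O : Subalgebra ℂ K) (F : Type) [Field F] [Algebra ℂ F] (ρ : O →ₐ[ℂ] F),
      IsPoint x O → Function.Surjective ρ → ((ν + j : ℕ) : Cardinal) < Algebra.trdeg ℂ F →
        KltAt D m L O ∧ (p = 0 ∨ SmoothAt n O))
    (H : Prm x →₀ ℤ)
    (hyperplane : ∀ i (w : Prm x), PrimeDiv (chart x i) w.1 → H w = ord w.1 ((x 0 : K) / x i))
    (ξ : Fin k × Fin n → K') (hξ : AlgebraicIndependent K ξ) (type : Fin p → Fin k)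
    (P : Polynomial (Polynomial ℚ))
    (euler : ∀ t a : ℕ, (chi (SectT D ξ type (t • L + a • H)) : ℚ) =
      (P.eval (Polynomial.C (t : ℚ))).eval (a : ℚ))
    (deg : P.natDegree ≤ ν) (order : ¬ Polynomial.X ^ (j + 1) ∣ P.coeff ν) :
    (∃ δ : ℚ, 0 < δ ∧ ∃ᶠ t : ℕ in atTop, δ * (t : ℚ) ^ ν ≤ finrank ℂ (Sect (t • L) ∅)) ∨
      ∃ d : ℕ, ν < d ∧ d ≤ ν + j ∧
        IsLeast {e : ℕ | ∃ F : IntermediateField ℂ K, Algebra.trdeg ℂ F = e ∧ Tors L F} d := by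
  classical
  obtain ⟨κ, _, ⟨E⟩⟩ := exists_emb normal cartier
  obtain ⟨S, Q, s1, s2, q1, q2, q3, F, f1, f2⟩ :=
    E.fbBase hm normal hτ hD canonical effective hL nef klt hyperplane hξ euler deg order
  obtain ⟨k₀, M, θ, k1, k2, k3⟩ := DS.torsion S.cart S.nef S.i₀ S.u S.tr S.top F f1 f2
  rw [s1, s2] at k3
  obtain ⟨b, hb⟩ := Cardinal.lt_aleph0.1 (k1.trans_lt Cardinal.natCast_lt_aleph0)
  have h1 : ∃ F : IntermediateField ℂ K, Algebra.trdeg ℂ F = b ∧ Tors L F :=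
    ⟨k₀, hb, E.triv_of normal k2 k3⟩
  have h2 : ∃ e : ℕ, ∃ F : IntermediateField ℂ K, Algebra.trdeg ℂ F = e ∧ Tors L F := ⟨b, h1⟩
  rcases lt_or_ge ν (Nat.find h2) with h | h
  · exact Or.inr ⟨_, h, (Nat.find_min' h2 h1).trans (Nat.cast_le.1 (hb ▸ k1)), Nat.find_spec h2,
      fun e he => Nat.find_min' h2 he⟩
  obtain ⟨G, g1, g2⟩ := Nat.find_spec h2
  obtain ⟨M', θ', g3, g4, g5⟩ := E.of_triv normal cartier g2
  rw [← s1, ← s2] at g5
  have h3 := fb_growth S q1 q2 q3 g1 h g3 g4 g5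
  rw [s1, s2] at h3
  have h9 : ∀ t : ℕ, finrank ℂ (Tw (t • L) (E.k * 0)) = finrank ℂ (Sect (t • L) ∅) := fun t => by
    rw [mul_zero, tw_zero]
  exact Or.inl (by simpa only [E.finrank_eq, h9] using h3)

end Pool.Agent.Lib.MP_bc213e_ag.OW
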